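import Pool.Agent.H7.HDC.Tg

/-!
# MP_e37c09_lc: positive sets are transferred between `K` and `lam`
-/

open Ordinal Cardinal Order Set
open scoped ZFSet

universe u

namespace Pool.Agent.H7.HDC.TRP

open _root_.HD Pool.Agent.H7.HDC.CL
open Pool.Agent.H3.HD (exists_bound)

variable {f : Ordinal.{u} → Ordinal.{u}} {K : Cardinal.{u}} {lam : Ordinal.{u}}

theorem cof_sp {C : Set Ordinal.{u}} {γ : Ordinal.{u}} (h : Cp f C γ) (hγ : IsSuccLimit γ) :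
    (sp f γ).cof = γ.cof := by
  refine le_antisymm ?_ (le_cof_sp h hγ)
  by_contra hlt
  push Not at hlt
  obtain ⟨b, hb1, hb2⟩ := Pool.Agent.H54.HD.LA.cf_self γ
  obtain ⟨s, hs, h1⟩ := exists_bound (ρ := sp f γ) (τ := γ.cof.ord)
    (by rw [Cardinal.card_ord]; exact hlt) (fun i => sp f (b i)) fun i hi => sp_lt_sp h (hb1 i hi)
  obtain ⟨γ', hγ', h2⟩ := sp_cof_lt h hγ hs
  obtain ⟨i, hi, h3⟩ := hb2 γ' hγ'
  exact absurd (h2.trans_le ((sp_mono h3).trans (h1 i hi))) (lt_irrefl _)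

/-- the closure points as a club set -/
theorem exists_clb (hK : K.IsRegular) (hK0 : ℵ₀ < K) (hcof : lam.cof = K)
    (hf : ∀ ζ < K.ord, f ζ < lam) (hon : ∀ a < lam, ∃ ζ < K.ord, f ζ = a)
    {C' : Set Ordinal.{u}} (hC' : Clb K.ord C') : ∃ D, Clb K.ord D ∧
      ∀ γ ∈ D, γ < K.ord → γ ∈ C' ∧ IsSuccLimit γ ∧ Cp f univ γ := by
  have hlim : IsSuccLimit K.ord := Cardinal.isSuccLimit_ord hK.aleph0_le
  obtain ⟨C3, hC3, hC3'⟩ := cp_club hK hK0 hcof hf hon (CV.clb_univ (ρ := lam)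
    (Ordinal.one_lt_cof_iff.1 (Cardinal.one_lt_aleph0.trans (by rw [hcof]; exact hK0))))
  have h1 := All.ve K hK hK0 succ fun x hx => hlim.succ_lt hx
  have hKc : ℵ₀ < K.ord.cof := by rw [hK.cof_ord]; exact hK0
  refine ⟨_, Pool.Agent.H65.HD.clb_inter hKc hC' (Pool.Agent.H65.HD.clb_inter hKc hC3 h1), ?_⟩
  rintro γ ⟨k1, k2, k3, k4⟩ hγ
  refine ⟨k1, ?_, hC3' γ k2 hγ⟩
  refine ⟨?_, Order.isSuccPrelimit_of_succ_lt fun a ha => k4 a ha⟩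
  exact not_isMin_of_lt k3

/-- the image of a club is a club -/
theorem clb_img {D : Set Ordinal.{u}} (hK : K.IsRegular) (hK0 : ℵ₀ < K) (hcof : lam.cof = K)
    (hf : ∀ ζ < K.ord, f ζ < lam) (hon : ∀ a < lam, ∃ ζ < K.ord, f ζ = a) (hD : Clb K.ord D) :
    Clb lam {b | ∃ γ < K.ord, γ ∈ D ∧ b = sp f γ} := by
  have hlim : IsSuccLimit K.ord := Cardinal.isSuccLimit_ord hK.aleph0_le
  refine ⟨fun a ha => ?_, fun x hx h0 hx' => ?_⟩
  · obtain ⟨ζ, hζ, rfl⟩ := hon a ha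
    obtain ⟨γ, h1, h2, h3⟩ := hD.unb ζ hζ
    exact ⟨_, sp_lt hK0 hcof hf h1, lt_sp h2, γ, h1, h3, rfl⟩
  · obtain ⟨ζ, hζ, hζx⟩ := hon x hx
    have hne : ∃ δ, x ≤ sp f δ := ⟨succ ζ, by rw [← hζx]; exact (lt_sp (lt_succ ζ)).le⟩
    have h1 := csInf_mem (s := {δ | x ≤ sp f δ}) hne
    have h2 : sInf {δ | x ≤ sp f δ} ≤ succ ζ := csInf_le' (s := {δ | x ≤ sp f δ})
      (by show x ≤ _; rw [← hζx]; exact (lt_sp (lt_succ ζ)).le)
    set δ := sInf {δ | x ≤ sp f δ} with hδ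
    have h3 : ∀ δ' < δ, sp f δ' < x := fun δ' hδ' => by
      by_contra hcon
      push Not at hcon
      exact absurd (csInf_le' (s := {δ | x ≤ sp f δ}) hcon) (not_le.2 hδ')
    have h4 : ∀ γ, sp f γ < x → γ < δ := fun γ hγ => by
      by_contra hcon
      push Not at hcon
      exact absurd (h1.trans (sp_mono hcon)) (not_le.2 hγ)
    have hδK : δ < K.ord := h2.trans_lt (hlim.succ_lt hζ)
    have h5 : ∀ δ' < δ, ∃ γ < δ, δ' < γ ∧ γ ∈ D := by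
      intro δ' hδ'
      obtain ⟨z, hz, h6, γ, h7, h8, rfl⟩ := hx' _ (h3 δ' hδ')
      refine ⟨γ, h4 γ hz, ?_, h8⟩
      by_contra hcon
      push Not at hcon
      exact absurd (sp_mono (f := f) hcon) (not_le.2 h6)
    have h0' : 0 < δ := by
      obtain ⟨z, hz, h6, γ, h7, h8, rfl⟩ := hx' 0 h0
      exact lt_of_le_of_lt bot_le (h4 γ hz)
    refine ⟨δ, hδK, hD.cls δ hδK h0' h5, le_antisymm h1 (sp_le fun ζ' hζ' => ?_)⟩
    obtain ⟨γ, h6, h7, -⟩ := h5 ζ' hζ'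
    exact (lt_sp h7).trans (h3 γ h6)

theorem X : T_TRP.{u} := by
  intro N K lam hK hK0 hcof hN f hf hon C' hC' X
  have hKc : ℵ₀ < K.ord.cof := by rw [hK.cof_ord]; exact hK0
  constructor
  · intro hP C hC
    obtain ⟨D, hD, hD'⟩ := exists_clb hK hK0 hcof hf hon hC'
    obtain ⟨b, hb, ⟨γ, hγ, ⟨h1, h2⟩, rfl⟩, h4, h5⟩ := hP _ (clb_img hK hK0 hcof hf hon
      (Pool.Agent.H65.HD.clb_inter hKc hC hD))
    obtain ⟨k1, k2, k3⟩ := hD' γ h2 hγ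
    refine ⟨γ, hγ, h1, ⟨k1, k2, h4, cof_sp k3 k2⟩, ?_⟩
    unfold Cf at h5 ⊢
    rw [← cof_sp k3 k2]
    exact h5
  · intro hP C hC
    obtain ⟨C1, hC1, h1⟩ := cp_club hK hK0 hcof hf hon hC
    obtain ⟨γ, h2, h3, ⟨h4, h5, h6, h7⟩, h8⟩ := hP C1 hC1
    have hcp := h1 γ h3 h2
    have hl := sp_lt hK0 hcof hf h2
    have hc := clb_sp hC hcp h5 hl
    have h0 : 0 < sp f γ := lt_of_le_of_lt bot_le (lt_sp (f := f) h5.bot_lt)
    refine ⟨sp f γ, hl, hC.cls _ hl h0 fun y hy => ?_, h6, ?_⟩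
    · obtain ⟨z, hz, h9, h10⟩ := hc.unb y hy
      exact ⟨z, hz, h9, h10⟩
    · unfold Cf at h8 ⊢
      rw [h7]
      exact h8

end Pool.Agent.H7.HDC.TRP
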