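import Pool.Agent.H7.HDC.UN
import Pool.Agent.H68.HDC.SSN
import Pool.Agent.H7.HD.Fin4

/-!
# MP_e37c09_lc: the local dichotomy
-/

open Ordinal Cardinal Order Set
open scoped ZFSet

universe u

namespace HD

/-- Each regular cardinal less than `δ₁` is the cofinality of an element of `[κ, lam)` which is
regular in HOD. -/
def Sprd (δ₁ κ lam : Ordinal.{u}) : Prop := ∀ M : Cardinal.{u}, M.IsRegular → M.ord < δ₁ →
  ∃ τ, κ ≤ τ ∧ τ < lam ∧ RegHOD τ ∧ τ.cof = M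

/-- The second alternative for the interval `[κ, lam)`. -/
structure LocH (δ₁ δ₀ κ lam : Ordinal.{u}) : Prop where
  cof : ∀ τ, κ ≤ τ → τ < lam → (RegHOD τ ∨ ∃ K : Cardinal.{u}, τ = K.ord ∧ δ₁ < τ) →
    τ.cof = lam.cof
  fine : ∃ U, HFine κ lam lam.cof.ord U
  cov : CovH κ lam lam.cof.ord
  app : ∀ K : Cardinal.{u}, κ = K.ord → δ₁ < κ → ∀ χ, PbHOD χ lam →
    ApH κ χ ∧ ∀ ρ, PowHOD ρ χ → UlH K ρ
  nrm : ∀ K : Cardinal.{u}, K.IsRegular → κ = K.ord → δ₀ < κ →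
    lam < (succ K).ord ∧ ClubH δ₁ K lam ∧ SuH δ₁ δ₀ K lam

namespace All

theorem nonew {D : Cardinal.{u}} (hD : GoodN D) (hW : GoodW D) {θ : Ordinal.{u}}
    (hθ : D < θ.cof) : HD.NF.NoNew θ := by
  obtain ⟨en, hen⟩ := All.en.{u}
  obtain ⟨W, hW⟩ := hW θ hθ.le
  refine Pool.Agent.H45.NF.Asm.nn en D θ ⟨hen, hD.2.2.1, hθ, fun M hM hMD X hX hXp => ?_, ?_⟩
  · exact All.hb2 en hen D M θ hD.1 hD.2.1 hD.2.2.1 hM hMD hθ
      (All.ha _ _ _ (hD.2.2.2 M hM hMD θ hθ.le)) X hX hXp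
  · exact Pool.Agent.H45.NF.Asm.rg2 D θ W hD.1 hD.2.2.1 hθ hW

theorem loc {D' D : Cardinal.{u}} (hD' : GoodN D') (hW' : GoodW D') (hD : GoodN D) (hDD : D' < D)
    {κ lam : Ordinal.{u}} (hreg : RegHOD lam) (hκ : κ < lam) (hcf : D'.ord < lam.cof.ord) :
    Sprd D'.ord κ lam ∨ LocH D'.ord D.ord κ lam := by
  by_cases h : Sprd D'.ord κ lam
  · exact Or.inl h
  right
  unfold Sprd at h
  push Not at h
  obtain ⟨M, hM, hMD, hno⟩ := h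
  have hMD' : M < D' := Cardinal.ord_lt_ord.1 hMD
  have hcf' : D' < lam.cof := Cardinal.ord_lt_ord.1 hcf
  have hcov := Pool.Agent.H7.HDC.CV.cov hD' hM hMD' hreg hκ hcf' hno
  refine ⟨fun τ h1 h2 h3 => ?_, (sc D' M hD' hM hMD' κ lam hreg hκ hcf' hno).1, hcov,
    fun K hK hK' χ hχ => ?_, fun K hK hκK hK' => ?_⟩
  · obtain ⟨-, g2, g3⟩ := sc D' M hD' hM hMD' τ lam hreg h2 hcf' fun τ' g1 g2 => hno τ' (h1.trans g1) g2
    rcases h3 with h3 | ⟨K, rfl, h3⟩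
    · exact g2 h3
    · exact g3 K rfl (Cardinal.ord_lt_ord.1 h3)
  · subst hK
    have hK0 : ℵ₀ ≤ K := (hD'.2.2.1.trans (Cardinal.ord_lt_ord.1 hK')).le
    have hap := Pool.Agent.H7.HDC.AP.approx (fun θ hθ => nonew hD' hW' hθ) hK0 hcov hcf χ hχ
    exact ⟨hap, fun ρ hρ => Pool.Agent.H7.HDC.UN.uni hap hρ⟩
  · subst hκK
    have hDK : D < K := Cardinal.ord_lt_ord.1 hK'
    obtain ⟨h1, h2⟩ := rr D' M K lam hD' hM hMD' hK (hDD.trans hDK) hreg hκ hcf' hno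
    have h3 := h2 lam hκ.le le_rfl hreg
    exact ⟨h1, Pool.Agent.H7.HDC.CL.club hD' hM hMD' hK (hDD.trans hDK) hreg hκ h3 hno,
      Pool.Agent.H68.HDC.SSN.X Pool.Agent.H7.HDC.TRP.X D' D M K lam hD' hD hDD hM hMD' hK hDK
        hreg hκ h3 hno⟩

/-- the local dichotomy for extendible cardinals -/
theorem m18 (δ : Ordinal.{u}) (hδ : Extendible δ) : CaseA δ ∨ ∀ l < δ, ∃ δ₁ δ₀,
    l < δ₁ ∧ δ₁ < δ₀ ∧ δ₀ < δ ∧ ∀ κ lam : Ordinal.{u}, RegHOD lam → κ < lam → δ₁ < lam.cof.ord →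
      Sprd δ₁ κ lam ∨ LocH δ₁ δ₀ κ lam := by
  by_cases hA : CaseA δ
  · exact Or.inl hA
  refine Or.inr fun l hl => ?_
  obtain ⟨D', h1, h2, h3, h4⟩ := gr δ hδ hA l hl
  obtain ⟨D, g1, g2, g3, g4⟩ := gr δ hδ hA D'.ord h1
  exact ⟨D'.ord, D.ord, h2, g2, g1, fun κ lam hreg hκ hcf =>
    loc h3 h4 g3 (Cardinal.ord_lt_ord.1 g2) hreg hκ hcf⟩

end All

end HD
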