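import Pool.Agent.H7.HDC.Tg
import Pool.Agent.H54.NF.NFT
import Pool.Agent.H7.HDA.Fam

/-!
# MP_e37c09_lc: approximation
-/

open Ordinal Cardinal Order Set
open scoped ZFSet

universe u

namespace Pool.Agent.H7.HDC.AP

open _root_.HD HD.NF
open Pool.Agent.H3.HD (exists_bound)

/-- the characteristic function of a set of ordinals -/
def ch (A : ZFSet.{u}) (a b : Ordinal.{u}) : Prop :=
  (a.toZFSet ∈ A ∧ b = 1) ∨ (a.toZFSet ∉ A ∧ b = 0)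

theorem dr_ch {A : ZFSet.{u}} (hA : OD A) : DR (ch A) :=
  (DO.and hA.ds (DO.eqc 1 1)).or (DO.and (DO.not hA.ds) (DO.eqc 1 0))

theorem rst_ch {A : ZFSet.{u}} {χ ξ : Ordinal.{u}} (hξ : ξ < χ) :
    rst (rs χ 2 (ch A)) ξ = rs ξ 2 (ch (A ∩ ξ.toZFSet)) := by
  have key : ∀ a < ξ, ∀ b : Ordinal.{u}, ch A a b ↔ ch (A ∩ ξ.toZFSet) a b := by
    intro a ha b
    have : a.toZFSet ∈ A ∩ ξ.toZFSet ↔ a.toZFSet ∈ A := by
      rw [ZFSet.mem_inter]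
      exact and_iff_left (toZFSet_mem_toZFSet_iff.2 ha)
    unfold ch
    rw [this]
  ext z
  rw [Pool.Agent.H45.NF.mem_rst, mem_rs, mem_rs]
  constructor
  · rintro ⟨⟨a, ha, b, hb, hab, rfl⟩, a', ha', y, he⟩
    have e1 := (ZFSet.pair_injective he).1
    have e2 := toZFSet_injective e1
    subst e2
    exact ⟨a, ha', b, hb, (key a ha' b).1 hab, rfl⟩
  · rintro ⟨a, ha, b, hb, hab, rfl⟩
    exact ⟨⟨a, ha.trans hξ, b, hb, (key a ha b).2 hab, rfl⟩, a, ha, _, rfl⟩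

/-- there are no new subsets -/
theorem nosub {χ : Ordinal.{u}} (hN : NoNew χ) {A : ZFSet.{u}} (hA : A ⊆ χ.toZFSet)
    (h : ∀ ξ < χ, HOD (A ∩ ξ.toZFSet)) : HOD A := by
  have h01 : (0 : Ordinal.{u}) < 2 := by
    exact_mod_cast (by norm_num : (0 : ℕ) < 2)
  have h12 : (1 : Ordinal.{u}) < 2 := by
    exact_mod_cast (by norm_num : (1 : ℕ) < 2)
  have hf : ZFSet.IsFunc χ.toZFSet (2 : Ordinal.{u}).toZFSet (rs χ 2 (ch A)) := by
    refine ⟨fun p hp => ?_, fun z hz => ?_⟩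
    · obtain ⟨a, ha, b, hb, -, rfl⟩ := mem_rs.1 hp
      exact ZFSet.pair_mem_prod.2 ⟨toZFSet_mem_toZFSet_iff.2 ha, toZFSet_mem_toZFSet_iff.2 hb⟩
    · obtain ⟨a, ha, rfl⟩ := mem_toZFSet_iff.1 hz
      by_cases hh : a.toZFSet ∈ A
      · refine ⟨(1 : Ordinal.{u}).toZFSet, pair_mem_rs.2 ⟨ha, h12, Or.inl ⟨hh, rfl⟩⟩, ?_⟩
        intro w hw
        obtain ⟨a', ha', b, hb, hab, he⟩ := mem_rs.1 hw
        obtain ⟨e1, e2⟩ := ZFSet.pair_injective he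
        have e3 := toZFSet_injective e1
        subst e3
        rcases hab with ⟨-, rfl⟩ | ⟨h1, -⟩
        · exact e2
        · exact absurd hh h1
      · refine ⟨(0 : Ordinal.{u}).toZFSet, pair_mem_rs.2 ⟨ha, h01, Or.inr ⟨hh, rfl⟩⟩, ?_⟩
        intro w hw
        obtain ⟨a', ha', b, hb, hab, he⟩ := mem_rs.1 hw
        obtain ⟨e1, e2⟩ := ZFSet.pair_injective he
        have e3 := toZFSet_injective e1
        subst e3
        rcases hab with ⟨h1, -⟩ | ⟨-, rfl⟩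
        · exact absurd h1 hh
        · exact e2
  have h1 : HOD (rs χ 2 (ch A)) := (hN _ _ hf).1 fun ξ hξ => by
    rw [rst_ch hξ]
    exact hod_rs (dr_ch (h ξ hξ).od) ξ 2
  refine HOD.of_sub (OD.of_ds hA ?_) hA
  have h2 : DS {a | ZFSet.pair a.toZFSet (1 : Ordinal.{u}).toZFSet ∈ rs χ 2 (ch A)} :=
    DO.sub (1 : Ordinal.{u}) (R := fun b w => ZFSet.pair (w 0).toZFSet b.toZFSet ∈ rs χ 2 (ch A))
      (h1.od.dr.s2 (X := fun a b => ZFSet.pair a.toZFSet b.toZFSet ∈ rs χ 2 (ch A)) 1 0)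
  refine DO.congr h2 fun w => ?_
  show (w 0).toZFSet ∈ A ↔ ZFSet.pair (w 0).toZFSet (1 : Ordinal.{u}).toZFSet ∈ rs χ 2 (ch A)
  rw [pair_mem_rs]
  constructor
  · intro hw
    obtain ⟨a, ha, he⟩ := mem_toZFSet_iff.1 (hA hw)
    have e := toZFSet_injective he
    exact ⟨e ▸ ha, h12, Or.inl ⟨hw, rfl⟩⟩
  · rintro ⟨-, -, h3 | h3⟩
    · exact h3.1
    · exact absurd h3.2 (by simp)

/-- small sets of ordinals in HOD -/
theorem pk_card {K : Cardinal.{u}} {lam : Ordinal.{u}} {S : Set Ordinal.{u}} (hS : DS S)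
    (hSl : ∀ a ∈ S, a < lam) (hfew : Few K.ord S) : os lam S ∈ PkHOD K.ord lam := by
  unfold PkHOD
  rw [ZFSet.mem_sep, ZFSet.mem_powerset]
  refine ⟨?_, ?_⟩
  · intro z hz
    obtain ⟨a, ha, -, rfl⟩ := mem_os.1 hz
    exact toZFSet_mem_toZFSet_iff.2 ha
  obtain ⟨τ, hτ, hno⟩ := Pool.Agent.H20.HD.CS.idx_of_few All.vh hfew
  have hot : ∀ z ∈ S, ∃ a < τ, nth S a z := by
    intro z hz
    obtain ⟨a, -, ha⟩ := (All.vh S).1 z hz
    refine ⟨a, ?_, ha⟩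
    by_contra hcon
    push Not at hcon
    rcases hcon.eq_or_lt with h | h
    · subst h
      exact hno ⟨z, ha⟩
    · obtain ⟨y, -, hy⟩ := (All.vh S).2.2.1 a z ha τ h
      exact hno ⟨y, hy⟩
  have hN : DR fun a z => nth S a z := All.db (fun a _ => a ∈ S) (hS.congr fun _ => Iff.rfl)
  have huniq : ∀ t i j, nth S t i → nth S t j → i = j := by
    intro t i j hi hj
    have h := (All.vh S).2.1
    rcases lt_trichotomy i j with h1 | h1 | h1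
    · exact absurd ((h t t i j hi hj).2 h1) (lt_irrefl _)
    · exact h1
    · exact absurd ((h t t j i hj hi).2 h1) (lt_irrefl _)
  by_cases hne : ∃ i, i ∈ S
  · obtain ⟨i0, hi0⟩ := hne
    let R : Ordinal.{u} → Ordinal.{u} → Prop := fun t i => nth S t i ∨ (i = i0 ∧ ¬ ∃ i', nth S t i')
    have hR : DR R := by
      refine hN.or ((DO.eqc 1 i0).and (DO.not ?_))
      exact DO.ex (R := fun i' w => nth S (w 0) i') (hN.s2 1 0)
    refine ⟨τ, hτ, rs τ lam R, hod_rs hR τ lam, Pool.Agent.H62.HD.KE.func_of ?_ ?_ ?_, ?_⟩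
    · intro t _ i hi h
      rcases h with h | ⟨rfl, -⟩
      · exact h.1
      · exact hi0
    · intro t _
      by_cases h : ∃ i', nth S t i'
      · obtain ⟨i', hi'⟩ := h
        exact ⟨i', hSl _ hi'.1, Or.inl hi'⟩
      · exact ⟨i0, hSl _ hi0, Or.inr ⟨rfl, h⟩⟩
    · intro t _ i j h h'
      rcases h with h | ⟨rfl, h⟩
      · rcases h' with h' | ⟨-, h'⟩
        · exact huniq t i j h h'
        · exact absurd ⟨i, h⟩ h'
      · rcases h' with h' | ⟨rfl, -⟩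
        · exact absurd ⟨j, h'⟩ h
        · rfl
    · intro b hb
      obtain ⟨i, hi, hiS, rfl⟩ := mem_os.1 hb
      obtain ⟨t, ht, hti⟩ := hot i hiS
      exact ⟨t, ht, pair_mem_rs.2 ⟨ht, hi, Or.inl hti⟩⟩
  · push Not at hne
    refine ⟨0, bot_le.trans_lt hτ, rs 0 lam (fun _ _ => False),
      hod_rs (R := fun _ _ => False) (DO.cst False) 0 lam,
      Pool.Agent.H62.HD.KE.func_of ?_ ?_ ?_, ?_⟩
    · intro t ht
      exact absurd ht (not_lt.2 bot_le)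
    · intro t ht
      exact absurd ht (not_lt.2 bot_le)
    · intro t ht
      exact absurd ht (not_lt.2 bot_le)
    · intro b hb
      obtain ⟨i, hi, hiS, -⟩ := mem_os.1 hb
      exact absurd hiS (hne i)

/-- the values of the function `F` -/
def Ev (F : ZFSet.{u}) (c a : Ordinal.{u}) : Prop :=
  ∃ x, ZFSet.pair c.toZFSet x ∈ F ∧ a.toZFSet ∈ x

theorem dr_Ev {F : ZFSet.{u}} (hF : OD F) : DR (Ev F) :=
  ⟨fun v => ∃ x, ZFSet.pair (v 0) x ∈ F ∧ v 1 ∈ x,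
    DZ.od (R := fun f v => ∃ x, ZFSet.pair (v 0) x ∈ f ∧ v 1 ∈ x) hF
      (DZ.ex (R := fun x v => ZFSet.pair (v 1) x ∈ v 0 ∧ v 2 ∈ x)
        ((loc_pmem 2 0 1).dz.and (DZ.mem 3 0))), fun _ => Iff.rfl⟩

theorem ev_iff {F x y : ZFSet.{u}} {β c a : Ordinal.{u}} (hF : ZFSet.IsFunc β.toZFSet y F)
    (h : ZFSet.pair c.toZFSet x ∈ F) : Ev F c a ↔ a.toZFSet ∈ x := by
  constructor
  · rintro ⟨x', h1, h2⟩
    have hc := (ZFSet.pair_mem_prod.1 (hF.1 h)).1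
    rw [(hF.2 _ hc).unique h h1]
    exact h2
  · intro h1
    exact ⟨x, h, h1⟩

/-- the differences of the values at the elements of `B` -/
def Dl (F B : ZFSet.{u}) (χ : Ordinal.{u}) : Set Ordinal.{u} :=
  {d | d < χ ∧ ∃ c1 : Ordinal.{u}, c1.toZFSet ∈ B ∧ ∃ c2 : Ordinal.{u}, c2.toZFSet ∈ B ∧
    ¬ (Ev F c1 d ↔ Ev F c2 d) ∧ ∀ d' < d, (Ev F c1 d' ↔ Ev F c2 d')}

theorem ds_Dl {F B : ZFSet.{u}} (hF : OD F) (hB : OD B) (χ : Ordinal.{u}) : DS (Dl F B χ) := by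
  have hE := dr_Ev hF
  refine DO.and (DO.ltc 0 χ) (DO.ex (R := fun c1 w => c1.toZFSet ∈ B ∧ ∃ c2 : Ordinal.{u},
    c2.toZFSet ∈ B ∧ ¬ (Ev F c1 (w 0) ↔ Ev F c2 (w 0)) ∧
      ∀ d' < w 0, (Ev F c1 d' ↔ Ev F c2 d')) ?_)
  refine DO.and hB.ds (DO.ex (R := fun c2 w =>
    c2.toZFSet ∈ B ∧ ¬ (Ev F (w 0) (w 1) ↔ Ev F c2 (w 1)) ∧
      ∀ d' < w 1, (Ev F (w 0) d' ↔ Ev F c2 d')) ?_)
  refine DO.and hB.ds (DO.and ?_ (DO.allLt (R := fun d' w => Ev F (w 1) d' ↔ Ev F (w 0) d') 2 ?_))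
  · exact ((hE.s2 1 2).iff (hE.s2 0 2)).not
  · exact (hE.s2 2 0).iff (hE.s2 1 0)

theorem few_Dl {K : Cardinal.{u}} (hK0 : ℵ₀ ≤ K) {F B : ZFSet.{u}} {χ β : Ordinal.{u}}
    (hB : B ∈ PkHOD K.ord β) : Few K.ord (Dl F B χ) := by
  have hB1 : B = os β {a | a.toZFSet ∈ B} := by
    unfold PkHOD at hB
    rw [ZFSet.mem_sep, ZFSet.mem_powerset] at hB
    ext z
    rw [mem_os]
    constructor
    · intro hz
      obtain ⟨a, ha, rfl⟩ := mem_toZFSet_iff.1 (hB.1 hz)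
      exact ⟨a, ha, hz, rfl⟩
    · rintro ⟨a, -, h, rfl⟩
      exact h
  have h1 : Few K.ord {a : Ordinal.{u} | a.toZFSet ∈ B} := by
    have h2 := Pool.Agent.H20.HD.CS.few_of_pk (κ := K.ord) (lam := β)
      (S := {a : Ordinal.{u} | a.toZFSet ∈ B}) (by rw [← hB1]; exact hB)
    refine Pool.Agent.H7.HDA.few_sub h2 fun a ha => ⟨ha, ?_⟩
    have h3 : a.toZFSet ∈ os β {a | a.toZFSet ∈ B} := by rw [← hB1]; exact ha
    exact (ord_mem_os.1 h3).1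
  rw [few_iff] at h1 ⊢
  have h2 : ∀ d : Dl F B χ, ∃ p : {a : Ordinal.{u} | a.toZFSet ∈ B} ×
      {a : Ordinal.{u} | a.toZFSet ∈ B}, ¬ (Ev F p.1.1 d.1 ↔ Ev F p.2.1 d.1) ∧
        ∀ d' < d.1, (Ev F p.1.1 d' ↔ Ev F p.2.1 d') := by
    rintro ⟨d, -, c1, h1, c2, h2, h3, h4⟩
    exact ⟨(⟨c1, h1⟩, ⟨c2, h2⟩), h3, h4⟩
  choose g hg1 hg2 using h2
  have hinj : Function.Injective g := by
    intro d d' he
    rcases lt_trichotomy d.1 d'.1 with h | h | h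
    · have h3 := hg2 d' d.1 h
      rw [← he] at h3
      exact absurd h3 (hg1 d)
    · exact Subtype.ext h
    · have h3 := hg2 d d'.1 h
      rw [he] at h3
      exact absurd h3 (hg1 d')
  have h3 := Cardinal.mk_le_of_injective hinj
  refine h3.trans_lt ?_
  rw [Cardinal.mk_prod, Cardinal.lift_id]
  exact Cardinal.mul_lt_of_lt (by rw [Cardinal.aleph0_le_lift]; exact hK0) h1 h1

/-- the case of small cofinality -/
theorem small {K : Cardinal.{u}} (hK0 : ℵ₀ ≤ K) {β χ ν : Ordinal.{u}} (hcov : CovH K.ord β ν)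
    (hPb : PbHOD χ β) {A : ZFSet.{u}} (hA : A ⊆ χ.toZFSet)
    (happ : ∀ B ∈ PkHOD K.ord χ, HOD B → HOD (A ∩ B)) (h : ∀ ξ < χ, HOD (A ∩ ξ.toZFSet))
    (hlim : IsSuccLimit χ) (hcf : χ.cof.ord < ν) : HOD A := by
  obtain ⟨F, y, hF, hFn, hF2⟩ := hPb
  obtain ⟨b, hb1, hb2⟩ := Pool.Agent.H54.HD.LA.cf_self χ
  have hex : ∀ i : Ordinal.{u}, ∃ c : Ordinal.{u}, i < χ.cof.ord → c < β ∧
      ZFSet.pair c.toZFSet (A ∩ (b i).toZFSet) ∈ F := by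
    intro i
    by_cases hi : i < χ.cof.ord
    · obtain ⟨c, hc1, hc2⟩ := hF2 (b i) (hb1 i hi) _ (h (b i) (hb1 i hi))
        (fun z hz => (ZFSet.mem_inter.1 hz).2)
      exact ⟨c, fun _ => ⟨hc1, hc2⟩⟩
    · exact ⟨0, fun h' => absurd h' hi⟩
  choose c hc using hex
  obtain ⟨B, hBk, hBH, hB3⟩ := hcov {z | ∃ i < χ.cof.ord, z = c i}
    (by rintro z ⟨i, hi, rfl⟩; exact (hc i hi).1)
    ⟨χ.cof.ord, hcf, c, fun x ⟨i, hi, e⟩ => ⟨i, hi, e.symm⟩⟩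
  have hD := ds_Dl hF.od hBH.od χ
  have hDk := pk_card hD (fun a ha => ha.1) (few_Dl (F := F) (χ := χ) hK0 hBk)
  have hDH := hod_os hD χ
  have hAD := happ _ hDk hDH
  have hE := dr_Ev hF.od
  have hcE : ∀ i < χ.cof.ord, ∀ a : Ordinal.{u}, Ev F (c i) a ↔ a.toZFSet ∈ A ∧ a < b i := by
    intro i hi a
    rw [ev_iff hFn (hc i hi).2, ZFSet.mem_inter, toZFSet_mem_toZFSet_iff]
  have hDS : DS {a | a < χ ∧ ∃ c1 : Ordinal.{u}, c1.toZFSet ∈ B ∧ ∃ η < χ,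
      (∀ x, Ev F c1 x → x < η) ∧ (∀ d, d ∈ Dl F B χ → (Ev F c1 d ↔
        (d.toZFSet ∈ A ∩ os χ (Dl F B χ) ∧ d < η))) ∧ Ev F c1 a} := by
    refine DO.and (DO.ltc 0 χ) (DO.ex (R := fun c1 w => c1.toZFSet ∈ B ∧ ∃ η < χ,
      (∀ x, Ev F c1 x → x < η) ∧ (∀ d, d ∈ Dl F B χ → (Ev F c1 d ↔
        (d.toZFSet ∈ A ∩ os χ (Dl F B χ) ∧ d < η))) ∧ Ev F c1 (w 0)) ?_)
    refine DO.and hBH.od.ds (DO.exLtc (R := fun η w =>
      (∀ x, Ev F (w 0) x → x < η) ∧ (∀ d, d ∈ Dl F B χ → (Ev F (w 0) d ↔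
        (d.toZFSet ∈ A ∩ os χ (Dl F B χ) ∧ d < η))) ∧ Ev F (w 0) (w 1)) χ ?_)
    refine DO.and ?_ (DO.and ?_ (hE.s2 1 2))
    · exact DO.all (R := fun x w => Ev F (w 1) x → x < w 0) ((hE.s2 2 0).imp (DO.lt 0 1))
    · refine DO.all (R := fun d w => d ∈ Dl F B χ → (Ev F (w 1) d ↔
        (d.toZFSet ∈ A ∩ os χ (Dl F B χ) ∧ d < w 0))) ?_
      exact (DO.s1 (X := fun d => d ∈ Dl F B χ) hD 0).imp ((hE.s2 2 0).iff
        ((DO.s1 (X := fun d => d.toZFSet ∈ A ∩ os χ (Dl F B χ)) hAD.od.ds 0).and (DO.lt 0 1)))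
  refine HOD.of_sub (OD.of_ds hA (DO.congr hDS fun w => ?_)) hA
  show (w 0).toZFSet ∈ A ↔ _
  set a := w 0 with ha
  constructor
  · intro haA
    have haχ : a < χ := by
      obtain ⟨a', h1, h2⟩ := mem_toZFSet_iff.1 (hA haA)
      rwa [← toZFSet_injective h2]
    obtain ⟨i, hi, h1⟩ := hb2 _ (hlim.succ_lt haχ)
    refine ⟨haχ, c i, hB3 _ ⟨i, hi, rfl⟩, b i, hb1 i hi, fun x hx => ((hcE i hi x).1 hx).2, ?_,
      (hcE i hi a).2 ⟨haA, (lt_succ a).trans_le h1⟩⟩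
    intro d hd
    rw [hcE i hi d, ZFSet.mem_inter]
    constructor
    · rintro ⟨h2, h3⟩
      exact ⟨⟨h2, ord_mem_os.2 ⟨hd.1, hd⟩⟩, h3⟩
    · rintro ⟨⟨h2, -⟩, h3⟩
      exact ⟨h2, h3⟩
  · rintro ⟨haχ, c1, hc1, η, hη, h1, h2, h3⟩
    by_contra haA
    obtain ⟨i, hi, h4⟩ := hb2 _ (max_lt (hlim.succ_lt haχ) hη)
    have h5 : ¬ (Ev F c1 a ↔ Ev F (c i) a) := by
      intro h6
      exact haA ((hcE i hi a).1 (h6.1 h3)).1
    have hne : ({d | ¬ (Ev F c1 d ↔ Ev F (c i) d)} : Set Ordinal.{u}).Nonempty := ⟨a, h5⟩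
    have hd1 := csInf_mem hne
    have hd2 : sInf {d | ¬ (Ev F c1 d ↔ Ev F (c i) d)} ≤ a := csInf_le' h5
    set d := sInf {d | ¬ (Ev F c1 d ↔ Ev F (c i) d)} with hdd
    have hd3 : ∀ d' < d, (Ev F c1 d' ↔ Ev F (c i) d') := by
      intro d' hd'
      by_contra hcon
      have : d ≤ d' := csInf_le' (s := {d | ¬ (Ev F c1 d ↔ Ev F (c i) d)}) hcon
      exact absurd hd' (not_lt.2 this)
    have hdD : d ∈ Dl F B χ := ⟨hd2.trans_lt haχ, c1, hc1, c i, hB3 _ ⟨i, hi, rfl⟩, hd1, hd3⟩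
    have haη := h1 a h3
    have hdη : d < η := hd2.trans_lt haη
    have hdb : d < b i := hdη.trans_le ((le_max_right _ _).trans h4)
    refine hd1 ?_
    rw [h2 d hdD, hcE i hi d, ZFSet.mem_inter]
    constructor
    · rintro ⟨⟨h6, -⟩, -⟩
      exact ⟨h6, hdb⟩
    · rintro ⟨h6, -⟩
      exact ⟨⟨h6, ord_mem_os.2 ⟨hdD.1, hdD⟩⟩, hdη⟩

theorem PbHOD.mono {χ χ' β : Ordinal.{u}} (h : PbHOD χ β) (hχ : χ' ≤ χ) : PbHOD χ' β := by
  obtain ⟨f, y, h1, h2, h3⟩ := h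
  exact ⟨f, y, h1, h2, fun ξ hξ => h3 ξ (hξ.trans_le hχ)⟩

theorem pk_mono {κ lam lam' : Ordinal.{u}} {x : ZFSet.{u}} (h : x ∈ PkHOD κ lam) (hl : lam ≤ lam') :
    x ∈ PkHOD κ lam' := by
  unfold PkHOD at h ⊢
  rw [ZFSet.mem_sep, ZFSet.mem_powerset] at h ⊢
  refine ⟨fun z hz => ?_, h.2⟩
  obtain ⟨a, ha, rfl⟩ := mem_toZFSet_iff.1 (h.1 hz)
  exact toZFSet_mem_toZFSet_iff.2 (ha.trans_le hl)

theorem pk_sub {κ lam : Ordinal.{u}} {x : ZFSet.{u}} (h : x ∈ PkHOD κ lam) : x ⊆ lam.toZFSet := by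
  unfold PkHOD at h
  rw [ZFSet.mem_sep, ZFSet.mem_powerset] at h
  exact h.1

/-- approximation -/
theorem approx {D K : Cardinal.{u}} (hN : ∀ θ : Ordinal.{u}, D < θ.cof → NoNew θ)
    (hK0 : ℵ₀ ≤ K) {β ν : Ordinal.{u}} (hcov : CovH K.ord β ν) (hDν : D.ord < ν) :
    ∀ χ : Ordinal.{u}, PbHOD χ β → ApH K.ord χ := by
  intro χ
  induction χ using WellFoundedLT.induction with
  | ind χ ih =>
  intro hPb A hA happ
  have h : ∀ ξ < χ, HOD (A ∩ ξ.toZFSet) := by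
    intro ξ hξ
    refine ih ξ hξ (PbHOD.mono hPb hξ.le) _ (fun z hz => (ZFSet.mem_inter.1 hz).2) fun B hB hBH => ?_
    have h1 := happ B (pk_mono hB hξ.le) hBH
    have h2 : A ∩ ξ.toZFSet ∩ B = A ∩ B := by
      ext z
      rw [ZFSet.mem_inter, ZFSet.mem_inter, ZFSet.mem_inter]
      exact ⟨fun ⟨⟨g1, _⟩, g3⟩ => ⟨g1, g3⟩, fun ⟨g1, g3⟩ => ⟨⟨g1, pk_sub hB g3⟩, g3⟩⟩
    rw [h2]
    exact h1
  by_cases hlim : IsSuccLimit χ
  · by_cases hc : D < χ.cof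
    · exact nosub (hN χ hc) hA h
    · push Not at hc
      exact small hK0 hcov hPb hA happ h hlim ((Cardinal.ord_le_ord.2 hc).trans_lt hDν)
  · rw [not_isSuccLimit_iff, not_isSuccPrelimit_iff_mem_range_succ] at hlim
    rcases hlim with h0 | ⟨ξ, rfl⟩
    · have h1 : χ = 0 := by
        rw [← Ordinal.bot_eq_zero]
        exact h0.eq_bot
      subst h1
      refine HOD.of_sub (OD.of_ds hA (DO.congr (DO.cst False) fun w => ?_)) hA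
      refine iff_false_intro fun hw => ?_
      have hw' : (w 0).toZFSet ∈ A := hw
      obtain ⟨a, ha, -⟩ := mem_toZFSet_iff.1 (hA hw')
      exact absurd ha (not_lt.2 bot_le)
    · have h1 := (h ξ (lt_succ ξ)).od.ds
      refine HOD.of_sub (OD.of_ds hA (DO.congr (h1.or ((DO.eqc 0 ξ).and
        (DO.cst (ξ.toZFSet ∈ A)))) fun w => ?_)) hA
      show (w 0).toZFSet ∈ A ↔ (w 0).toZFSet ∈ A ∩ ξ.toZFSet ∨ (w 0 = ξ ∧ ξ.toZFSet ∈ A)
      rw [ZFSet.mem_inter, toZFSet_mem_toZFSet_iff]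
      constructor
      · intro hw
        obtain ⟨a, ha, he⟩ := mem_toZFSet_iff.1 (hA hw)
        have e := toZFSet_injective he
        subst e
        rcases (lt_succ_iff.1 ha).eq_or_lt with h2 | h2
        · exact Or.inr ⟨h2, h2 ▸ hw⟩
        · exact Or.inl ⟨hw, h2⟩
      · rintro (⟨g, -⟩ | ⟨e, g⟩)
        · exact g
        · rw [e]; exact g

end Pool.Agent.H7.HDC.AP
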