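import Pool.Agent.H7.HDC.CV
import Pool.Agent.H12.HD.ZA
import Pool.Agent.H3.HD.Iter
import Pool.Agent.H54.HD.LA
import Pool.Agent.H4.HD.FU
import Pool.Agent.H77.HD9.NP
import Pool.Agent.H65.HD.SC

/-!
# MP_e37c09_lc: a club of sets in HOD
-/

open Ordinal Cardinal Order Set
open scoped ZFSet

universe u

namespace HD

/-- If `f` maps `K` onto `lam` then, for all `γ` in a club subset of `K` with `δ₀ ≤ cof γ`, the image
of `γ` is in HOD. -/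
def ClubH (δ₀ : Ordinal.{u}) (K : Cardinal.{u}) (lam : Ordinal.{u}) : Prop :=
  ∀ f : Ordinal.{u} → Ordinal.{u}, (∀ ζ < K.ord, f ζ < lam) → (∀ a < lam, ∃ ζ < K.ord, f ζ = a) →
    ∃ C, Clb K.ord C ∧ ∀ γ ∈ C, γ < K.ord → δ₀ ≤ γ.cof.ord → HOD (os lam (f '' Iio γ))

end HD

namespace Pool.Agent.H7.HDC.CL

open _root_.HD
open Pool.Agent.H3.HD (exists_bound)

/-- the least strict upper bound of the `f ζ`, `ζ < γ` -/
noncomputable def sp (f : Ordinal.{u} → Ordinal.{u}) (γ : Ordinal.{u}) : Ordinal.{u} :=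
  sInf {b | ∀ ζ < γ, f ζ < b}

section

variable {f : Ordinal.{u} → Ordinal.{u}} {K : Cardinal.{u}} {lam : Ordinal.{u}}

theorem sp_ne (f : Ordinal.{u} → Ordinal.{u}) (γ : Ordinal.{u}) :
    ({b | ∀ ζ < γ, f ζ < b} : Set Ordinal.{u}).Nonempty := by
  have hb : BddAbove (f '' Iio γ) := Ordinal.bddAbove_of_small
  obtain ⟨b, hb⟩ := hb
  exact ⟨succ b, fun ζ hζ => lt_succ_of_le (hb ⟨ζ, hζ, rfl⟩)⟩

theorem lt_sp {γ ζ : Ordinal.{u}} (h : ζ < γ) : f ζ < sp f γ :=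
  csInf_mem (sp_ne f γ) ζ h

theorem sp_le {γ b : Ordinal.{u}} (h : ∀ ζ < γ, f ζ < b) : sp f γ ≤ b :=
  csInf_le' (s := {b | ∀ ζ < γ, f ζ < b}) h

theorem sp_mono {γ γ' : Ordinal.{u}} (h : γ ≤ γ') : sp f γ ≤ sp f γ' :=
  sp_le fun _ hζ => lt_sp (hζ.trans_le h)

theorem lt_sp_iff {γ a : Ordinal.{u}} (h : a < sp f γ) : ∃ ζ < γ, a ≤ f ζ := by
  by_contra hcon
  push Not at hcon
  exact absurd (sp_le hcon) (not_le.2 h)

theorem sp_lt (hK0 : ℵ₀ < K) (hcof : lam.cof = K) (hf : ∀ ζ < K.ord, f ζ < lam) {γ : Ordinal.{u}}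
    (hγ : γ < K.ord) : sp f γ < lam := by
  have hlim : IsSuccLimit lam := Ordinal.one_lt_cof_iff.1
    (Cardinal.one_lt_aleph0.trans (by rw [hcof]; exact hK0))
  obtain ⟨s, hs, h⟩ := exists_bound (ρ := lam) (by rw [hcof]; exact Cardinal.lt_ord.1 hγ) f
    fun i hi => hf i (hi.trans hγ)
  exact (sp_le fun ζ hζ => lt_succ_of_le (h ζ hζ)).trans_lt (hlim.succ_lt hs)

/-- `γ` is a closure point for the club `C` -/
def Cp (f : Ordinal.{u} → Ordinal.{u}) (C : Set Ordinal.{u}) (γ : Ordinal.{u}) : Prop :=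
  ∀ γ' < γ, ∃ γ'' < γ, ∃ z ∈ C, sp f γ' < z ∧ z < sp f γ''

/-- closure points contain a club -/
theorem cp_club (hK : K.IsRegular) (hK0 : ℵ₀ < K) (hcof : lam.cof = K)
    (hf : ∀ ζ < K.ord, f ζ < lam) (hon : ∀ a < lam, ∃ ζ < K.ord, f ζ = a) {C : Set Ordinal.{u}}
    (hC : Clb lam C) : ∃ C', Clb K.ord C' ∧ ∀ γ ∈ C', γ < K.ord → Cp f C γ := by
  have hlim : IsSuccLimit K.ord := Cardinal.isSuccLimit_ord hK0.le
  have hex : ∀ γ' : Ordinal.{u}, ∃ γ'' : Ordinal.{u}, γ' < K.ord → γ'' < K.ord ∧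
      ∃ z ∈ C, sp f γ' < z ∧ z < sp f γ'' := by
    intro γ'
    by_cases h : γ' < K.ord
    · obtain ⟨z, hz, h1, h2⟩ := hC.unb _ (sp_lt hK0 hcof hf h)
      obtain ⟨ζ, hζ, rfl⟩ := hon z hz
      exact ⟨succ ζ, fun _ => ⟨hlim.succ_lt hζ, _, h2, h1, lt_sp (lt_succ ζ)⟩⟩
    · exact ⟨0, fun h' => absurd h' h⟩
  choose g hg using hex
  have h1 := All.ve K hK hK0 (fun x => if x < K.ord then g x else 0) fun x hx => by
    show (if x < K.ord then g x else 0) < K.ord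
    rw [if_pos hx]
    exact (hg x hx).1
  refine ⟨_, h1, ?_⟩
  rintro γ ⟨h0, h2⟩ hγ γ' hγ'
  have h3 := h2 γ' hγ'
  rw [if_pos (hγ'.trans hγ)] at h3
  exact ⟨_, h3, (hg γ' (hγ'.trans hγ)).2⟩

theorem sp_lt_sp {C : Set Ordinal.{u}} {γ γ' : Ordinal.{u}} (h : Cp f C γ) (hγ' : γ' < γ) :
    sp f γ' < sp f γ := by
  obtain ⟨γ'', h1, z, -, h2, h3⟩ := h γ' hγ'
  exact h2.trans (h3.trans_le (sp_mono h1.le))

theorem sp_cof_lt {C : Set Ordinal.{u}} {γ a : Ordinal.{u}} (h : Cp f C γ) (hγ : IsSuccLimit γ)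
    (ha : a < sp f γ) : ∃ γ' < γ, a < sp f γ' := by
  obtain ⟨ζ, hζ, h1⟩ := lt_sp_iff ha
  exact ⟨succ ζ, hγ.succ_lt hζ, h1.trans_lt (lt_sp (lt_succ ζ))⟩

/-- a club is a club below the closure points -/
theorem clb_sp {C : Set Ordinal.{u}} (hC : Clb lam C) {γ : Ordinal.{u}} (h : Cp f C γ)
    (hγ : IsSuccLimit γ) (hl : sp f γ < lam) : Clb (sp f γ) C := by
  refine ⟨fun a ha => ?_, fun x hx h0 hx' => hC.cls x (hx.trans hl) h0 hx'⟩
  obtain ⟨γ', hγ', h1⟩ := sp_cof_lt h hγ ha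
  obtain ⟨γ'', h2, z, hz, h3, h4⟩ := h γ' hγ'
  exact ⟨z, h4.trans_le (sp_mono h2.le), h1.trans h3, hz⟩

/-- the suprema are a club below the closure points -/
theorem clb_range {C : Set Ordinal.{u}} {γ : Ordinal.{u}} (h : Cp f C γ)
    (hγ : IsSuccLimit γ) : Clb (sp f γ) (sp f '' Iio γ) := by
  refine ⟨fun a ha => ?_, fun x hx h0 hx' => ?_⟩
  · obtain ⟨γ', hγ', h1⟩ := sp_cof_lt h hγ ha
    exact ⟨_, sp_lt_sp h hγ', h1, γ', hγ', rfl⟩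
  · have hne : ∃ δ, x ≤ sp f δ := ⟨γ, hx.le⟩
    have h1 := csInf_mem (s := {δ | x ≤ sp f δ}) hne
    have h2 : sInf {δ | x ≤ sp f δ} ≤ γ := csInf_le' (s := {δ | x ≤ sp f δ}) hx.le
    set δ := sInf {δ | x ≤ sp f δ} with hδ
    have h3 : ∀ δ' < δ, sp f δ' < x := fun δ' hδ' => by
      by_contra hcon
      push Not at hcon
      exact absurd (csInf_le' (s := {δ | x ≤ sp f δ}) hcon) (not_le.2 hδ')
    have h4 : δ ≠ γ := by
      intro he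
      rw [he] at h3
      have h5 : sp f γ ≤ x := sp_le fun ζ hζ => (lt_sp (lt_succ ζ)).trans (h3 _ (hγ.succ_lt hζ))
      exact absurd hx (not_lt.2 h5)
    refine ⟨δ, lt_of_le_of_ne h2 h4, le_antisymm (sp_le fun ζ hζ => ?_) h1⟩
    -- `f ζ < x`
    by_contra hcon
    push Not at hcon
    have h5 : x < sp f (succ ζ) := hcon.trans_lt (lt_sp (lt_succ ζ))
    have h6 : δ ≤ succ ζ := by
      by_contra h7
      push Not at h7
      exact absurd (h3 _ h7) (not_lt.2 h5.le)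
    have h7 : δ = succ ζ := le_antisymm h6 (succ_le_of_lt hζ)
    obtain ⟨z, hz, h8, ζ', hζ', rfl⟩ := hx' (sp f ζ) (h3 ζ hζ)
    have h9 : ζ < ζ' := by
      by_contra h10
      push Not at h10
      exact absurd (sp_mono (f := f) h10) (not_le.2 h8)
    have h10 : δ ≤ ζ' := by rw [h7]; exact succ_le_of_lt h9
    exact absurd (h1.trans (sp_mono h10)) (not_le.2 hz)

/-- the cofinality -/
theorem le_cof_sp {C : Set Ordinal.{u}} {γ : Ordinal.{u}} (h : Cp f C γ) (hγ : IsSuccLimit γ) :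
    γ.cof ≤ (sp f γ).cof := by
  by_contra hlt
  push Not at hlt
  obtain ⟨b, hb1, hb2⟩ := Pool.Agent.H54.HD.LA.cf_self (sp f γ)
  have hex : ∀ i : Ordinal.{u}, ∃ γ' < γ, i < (sp f γ).cof.ord → b i < sp f γ' := by
    intro i
    by_cases hi : i < (sp f γ).cof.ord
    · obtain ⟨γ', h1, h2⟩ := sp_cof_lt h hγ (hb1 i hi)
      exact ⟨γ', h1, fun _ => h2⟩
    · exact ⟨0, hγ.bot_lt, fun h => absurd h hi⟩
  choose g hg1 hg2 using hex
  obtain ⟨s, hs, h1⟩ := exists_bound (ρ := γ) (τ := (sp f γ).cof.ord)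
    (by rw [Cardinal.card_ord]; exact hlt) g fun i _ => hg1 i
  obtain ⟨i, hi, h2⟩ := hb2 _ (sp_lt_sp h hs)
  exact absurd (h2.trans_lt ((hg2 i hi).trans_le (sp_mono (h1 i hi)))) (lt_irrefl _)

end

/-- null sets are null below almost all points -/
theorem null_sp {f : Ordinal.{u} → Ordinal.{u}} {K : Cardinal.{u}} {lam μ : Ordinal.{u}}
    (hK : K.IsRegular) (hK0 : ℵ₀ < K)
    (hcof : lam.cof = K) (hf : ∀ ζ < K.ord, f ζ < lam) (hon : ∀ a < lam, ∃ ζ < K.ord, f ζ = a)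
    {N : Set Ordinal.{u}} (hN : ¬ Pos μ lam N) : ∃ C', Clb K.ord C' ∧ ∀ γ ∈ C', γ < K.ord →
      IsSuccLimit γ → ¬ Pos μ (sp f γ) N := by
  unfold Pos at hN
  push Not at hN
  obtain ⟨C, hC, h1⟩ := hN
  obtain ⟨C', hC', h2⟩ := cp_club hK hK0 hcof hf hon hC
  refine ⟨C', hC', fun γ hγ hγK hlim hP => ?_⟩
  have hl := sp_lt hK0 hcof hf hγK
  obtain ⟨b, g1, g2, g3, g4⟩ := hP C (clb_sp hC (h2 γ hγ hγK) hlim hl)
  exact h1 b (g1.trans hl) g2 g3 g4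


/-- sets of size less than `K` are covered by initial segments of the enumeration -/
theorem cover_seg {f : Ordinal.{u} → Ordinal.{u}} {K : Cardinal.{u}} {lam : Ordinal.{u}}
    (hK : K.IsRegular) (hon : ∀ a < lam, ∃ ζ < K.ord, f ζ = a) {x : ZFSet.{u}}
    (hx : x ∈ PkHOD K.ord lam) : ∃ g < K.ord, ∀ a < lam, a.toZFSet ∈ x → ∃ ζ < g, f ζ = a := by
  unfold PkHOD at hx
  rw [ZFSet.mem_sep, ZFSet.mem_powerset] at hx
  obtain ⟨h1, τ, hτ, e, -, hfn, h2⟩ := hx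
  have hex : ∀ i : Ordinal.{u}, ∃ ζ < K.ord, i < τ → ∀ a : Ordinal.{u},
      ZFSet.pair i.toZFSet a.toZFSet ∈ e → f ζ = a := by
    intro i
    by_cases hi : i < τ
    · obtain ⟨w, hw, hu⟩ := hfn.2 i.toZFSet (toZFSet_mem_toZFSet_iff.2 hi)
      have hwx : w ∈ x := (ZFSet.pair_mem_prod.1 (hfn.1 hw)).2
      obtain ⟨b, hb, rfl⟩ := mem_toZFSet_iff.1 (h1 hwx)
      obtain ⟨ζ, hζ, rfl⟩ := hon b hb
      exact ⟨ζ, hζ, fun _ a ha => (toZFSet_injective (hu _ ha)).symm⟩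
    · exact ⟨0, (Cardinal.isSuccLimit_ord hK.aleph0_le).bot_lt, fun h => absurd h hi⟩
  choose z hz1 hz2 using hex
  obtain ⟨s, hs, h3⟩ := exists_bound (ρ := K.ord) (τ := τ)
    (by rw [hK.cof_ord]; exact Cardinal.lt_ord.1 hτ) z fun i _ => hz1 i
  refine ⟨succ s, (Cardinal.isSuccLimit_ord hK.aleph0_le).succ_lt hs, fun a ha hax => ?_⟩
  obtain ⟨i, hi, h4⟩ := h2 _ hax
  exact ⟨z i, lt_succ_of_le (h3 i hi), hz2 i hi a h4⟩

/-- the club for one atom -/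
theorem club_one {en : Ordinal.{u} → ZFSet.{u}} {M K : Cardinal.{u}} {lam c : Ordinal.{u}}
    {x : Ordinal.{u} → Ordinal.{u} → Prop} {f : Ordinal.{u} → Ordinal.{u}}
    (hK : K.IsRegular) (hK0 : ℵ₀ < K) (hcof : lam.cof = K) (hf : ∀ ζ < K.ord, f ζ < lam)
    (hon : ∀ a < lam, ∃ ζ < K.ord, f ζ = a) (hF : Fam en M K.ord lam c x) :
    ∃ C, Clb K.ord C ∧ ∀ γ ∈ C, γ < K.ord → ℵ₀ < γ.cof → Pos M.ord (sp f γ) (E en c) →
      ∀ a < lam, ((∃ ζ < γ, f ζ = a) ↔ ¬ Pos M.ord (sp f γ) {β | β ∈ E en c ∧ ¬ x β a}) := by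
  -- null sets
  have h1 : ∀ ζ : Ordinal.{u}, ∃ C', Clb K.ord C' ∧ (ζ < K.ord → ∀ γ ∈ C', γ < K.ord →
      IsSuccLimit γ → ¬ Pos M.ord (sp f γ) {β | β ∈ E en c ∧ ¬ x β (f ζ)}) := by
    intro ζ
    by_cases hζ : ζ < K.ord
    · obtain ⟨C', g1, g2⟩ := null_sp hK hK0 hcof hf hon (hF.fine (f ζ) (hf ζ hζ))
      exact ⟨C', g1, fun _ => g2⟩
    · exact ⟨univ, CV.clb_univ (Cardinal.isSuccLimit_ord hK.aleph0_le), fun h => absurd h hζ⟩
  choose C1 hC1 hC1' using h1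
  obtain ⟨C2, hC2, hC2'⟩ := null_sp hK hK0 hcof hf hon hF.small
  obtain ⟨C3, hC3, hC3'⟩ := cp_club hK hK0 hcof hf hon (CV.clb_univ (ρ := lam)
    (Ordinal.one_lt_cof_iff.1 (Cardinal.one_lt_aleph0.trans (by rw [hcof]; exact hK0))))
  -- closure points
  have h4 : ∀ γ' : Ordinal.{u}, ∃ g : Ordinal.{u}, g < K.ord ∧
      (os lam {i | x (sp f γ') i} ∈ PkHOD K.ord lam → ∀ a < lam, x (sp f γ') a →
        ∃ ζ < g, f ζ = a) := by
    intro γ'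
    by_cases h : os lam {i | x (sp f γ') i} ∈ PkHOD K.ord lam
    · obtain ⟨g, hg, h5⟩ := cover_seg hK hon h
      exact ⟨g, hg, fun _ a ha hx => h5 a ha (ord_mem_os.2 ⟨ha, hx⟩)⟩
    · exact ⟨0, (Cardinal.isSuccLimit_ord hK.aleph0_le).bot_lt, fun h' => absurd h' h⟩
  choose h h5 h6 using h4
  have hC4 := All.ve K hK hK0 h fun x _ => h5 x
  have hdiag := Pool.Agent.H33.HD.VD.diag hK hK0 C1 fun a _ => hC1 a
  have hKc : ℵ₀ < K.ord.cof := by rw [hK.cof_ord]; exact hK0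
  refine ⟨_, Pool.Agent.H65.HD.clb_inter hKc (Pool.Agent.H65.HD.clb_inter hKc hdiag hC2)
    (Pool.Agent.H65.HD.clb_inter hKc hC3 hC4), fun γ hγ hγK hγc hpos a ha => ?_⟩
  obtain ⟨⟨k1, k2⟩, k3, k4⟩ := hγ
  have hlim : IsSuccLimit γ := Ordinal.one_lt_cof_iff.1 (Cardinal.one_lt_aleph0.trans hγc)
  have hcp := hC3' γ k3 hγK
  have hsc : ℵ₀ < (sp f γ).cof := hγc.trans_le (le_cof_sp hcp hlim)
  constructor
  · rintro ⟨ζ, hζ, rfl⟩
    exact hC1' ζ (hζ.trans hγK) γ (k1.2 ζ hζ) hγK hlim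
  · intro hn
    have hn2 := null_union HD.All.va hsc hn (hC2' γ k2 hγK hlim)
    obtain ⟨β, hβ, ⟨γ', hγ', rfl⟩, ⟨hβE, hβn⟩, -⟩ := pos_diff HD.All.va hsc hpos hn2 _
      (clb_range hcp hlim)
    have g1 : x (sp f γ') a := by
      by_contra g
      exact hβn (Or.inl ⟨hβE, g⟩)
    have g2 : os lam {i | x (sp f γ') i} ∈ PkHOD K.ord lam := by
      by_contra g
      exact hβn (Or.inr ⟨hβE, g⟩)
    obtain ⟨ζ, hζ, rfl⟩ := h6 γ' g2 a ha g1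
    exact ⟨ζ, hζ.trans (k4.2 γ' hγ'), rfl⟩

/-- the theorem -/
theorem club {D M K : Cardinal.{u}} (hD : GoodN D) (hM : M.IsRegular) (hMD : M < D)
    (hK : K.IsRegular) (hDK : D < K) {lam : Ordinal.{u}} (hreg : RegHOD lam) (hKl : K.ord < lam)
    (hcof : lam.cof = K) (hτ : ∀ τ, K.ord ≤ τ → τ < lam → RegHOD τ → τ.cof ≠ M) :
    ClubH D.ord K lam := by
  intro f hf hon
  have hDl : D < lam.cof := by rw [hcof]; exact hDK
  have hK0 : ℵ₀ < K := hD.2.2.1.trans hDK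
  have hlam : ℵ₀ < lam.cof := by rw [hcof]; exact hK0
  obtain ⟨en, hen⟩ := All.en.{u}
  have hns : NSX D.ord M.ord lam := All.ha D.ord M.ord lam (hD.2.2.2 M hM hMD lam hDl.le)
  have hex : ∀ X : Set Ordinal.{u}, DS X → Pos M.ord lam X → ∃ c, E en c ⊆ X ∧
      Atom en M.ord lam c := fun X hX hP =>
    All.hb2 en hen D M lam hD.1 hD.2.1 hD.2.2.1 hM hMD hDl hns X hX hP
  obtain ⟨I, hIds, hIfew, hIat, hInull⟩ := Pool.Agent.H12.HD.ZA.X All.ea All.da All.db All.va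
    All.vh en hen D M lam hD.1 hD.2.2.1 hM hMD hDl hns hex
  obtain ⟨A, hA⟩ := All.ca M K.ord lam hM hKl hτ
  have h1 : ∀ c : Ordinal.{u}, ∃ (x : Ordinal.{u} → Ordinal.{u} → Prop) (C : Set Ordinal.{u}),
      Clb K.ord C ∧ (c ∈ I → DR x ∧ ∀ γ ∈ C, γ < K.ord → ℵ₀ < γ.cof → Pos M.ord (sp f γ) (E en c) →
      ∀ a < lam, ((∃ ζ < γ, f ζ = a) ↔ ¬ Pos M.ord (sp f γ) {β | β ∈ E en c ∧ ¬ x β a})) := by
    intro c
    by_cases hc : c ∈ I
    · obtain ⟨x, hx⟩ := All.ke en hen M K.ord lam c A hM hlam (hIat c hc) hreg hKl hA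
      obtain ⟨C, hC, hC'⟩ := club_one hK hK0 hcof hf hon hx
      exact ⟨x, C, hC, fun _ => ⟨hx.dr, hC'⟩⟩
    · exact ⟨fun _ _ => True, univ, CV.clb_univ (Cardinal.isSuccLimit_ord hK.aleph0_le),
        fun h => absurd h hc⟩
  choose x C hC hC' using h1
  obtain ⟨τ, hτD, e, he⟩ := hIfew
  have hC1 := Pool.Agent.H77.HD9.NP.clb_inter (D := D) (lam := K.ord)
    (by rw [hK.cof_ord]; exact hK0) (by rw [hK.cof_ord]; exact hDK) (fun i => C (e i))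
    fun i => hC (e i)
  obtain ⟨C2, hC2, hC2'⟩ := null_sp hK hK0 hcof hf hon hInull
  obtain ⟨C3, hC3, hC3'⟩ := cp_club hK hK0 hcof hf hon (CV.clb_univ (ρ := lam)
    (Ordinal.one_lt_cof_iff.1 (Cardinal.one_lt_aleph0.trans hlam)))
  have hKc : ℵ₀ < K.ord.cof := by rw [hK.cof_ord]; exact hK0
  refine ⟨_, Pool.Agent.H65.HD.clb_inter hKc hC1 (Pool.Agent.H65.HD.clb_inter hKc hC2 hC3),
    fun γ hγ hγK hγD => ?_⟩
  obtain ⟨k1, k2, k3⟩ := hγ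
  have hγD' : D ≤ γ.cof := Cardinal.ord_le_ord.1 hγD
  have hγ0 : ℵ₀ < γ.cof := hD.2.2.1.trans_le hγD'
  have hlim : IsSuccLimit γ := Ordinal.one_lt_cof_iff.1 (Cardinal.one_lt_aleph0.trans hγ0)
  have hcp := hC3' γ k3 hγK
  have hsD : D ≤ (sp f γ).cof := hγD'.trans (le_cof_sp hcp hlim)
  have hsc : ℵ₀ < (sp f γ).cof := hγ0.trans_le (le_cof_sp hcp hlim)
  -- an atom which is positive
  have hc : ∃ c ∈ I, Pos M.ord (sp f γ) (E en c) := by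
    by_contra hcon
    push Not at hcon
    have h2 := HD.All.va M.ord (sp f γ) hsc τ ((Cardinal.lt_ord.1 hτD).trans_le hsD)
      (fun i => {b | e i ∈ I ∧ b ∈ E en (e i)}) (fun i _ hP => by
        by_cases hi : e i ∈ I
        · exact hcon (e i) hi (Pos.mono hP fun _ _ h _ => h.2)
        · obtain ⟨b, -, -, h, -⟩ := hP univ (CV.clb_univ (Ordinal.one_lt_cof_iff.1
            (Cardinal.one_lt_aleph0.trans hsc)))
          exact hi h.1)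
    have h3 := null_union HD.All.va hsc h2 (hC2' γ k2 hγK hlim)
    refine h3 (Pos.mono (All.vc M (sp f γ) hM (hMD.trans_le hsD)) fun b _ _ _ => ?_)
    by_cases hb : ∃ c ∈ I, b ∈ E en c
    · obtain ⟨c, hcI, hbc⟩ := hb
      obtain ⟨i, hi, rfl⟩ := he c hcI
      exact Or.inl ⟨i, hi, hcI, hbc⟩
    · push Not at hb
      exact Or.inr hb
  obtain ⟨c, hcI, hcP⟩ := hc
  obtain ⟨i, hi, rfl⟩ := he c hcI
  obtain ⟨hdr, h2⟩ := hC' (e i) hcI
  have h3 := h2 γ (k1 i (hi.trans hτD)) hγK hγ0 hcP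
  have hE : DO fun w => w 0 ∈ E en (e i) :=
    DO.sub (e i) (R := fun c w => w 0 ∈ E en c) ((HD.All.ea en hen).1.ren
      (fun n => Nat.casesOn n 1 fun _ => 0))
  have hy : DS {a | ¬ Pos M.ord (sp f γ) {β | β ∈ E en (e i) ∧ ¬ x (e i) β a}} :=
    DO.not (Pool.Agent.H4.HD.FU.posDO M.ord (sp f γ)
      (X := fun β w => β ∈ E en (e i) ∧ ¬ x (e i) β (w 0))
      (hE.and (hdr.s2 0 1).not))
  have h4 := hod_os hy lam
  have h5 : os lam (f '' Iio γ) =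
      os lam {a | ¬ Pos M.ord (sp f γ) {β | β ∈ E en (e i) ∧ ¬ x (e i) β a}} := by
    ext z
    rw [mem_os, mem_os]
    refine exists_congr fun a => and_congr_right fun ha => and_congr_left fun _ => ?_
    exact h3 a ha
  rw [h5]
  exact h4

end Pool.Agent.H7.HDC.CL
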