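import Pool.Agent.H7.HD.All4

/-!
# MP_e37c09_lc: covering by sets in HOD, from a fine family
-/

open Ordinal Cardinal Order Set
open scoped ZFSet

universe u

namespace HD

/-- Each subset of `lam` with fewer than `ν` elements is contained in an element of HOD which is a
subset of `lam` and has fewer than `κ` elements in HOD. -/
def CovH (κ lam ν : Ordinal.{u}) : Prop := ∀ A : Set Ordinal.{u}, A ⊆ Iio lam → Few ν A →
  ∃ B ∈ PkHOD κ lam, HOD B ∧ ∀ a ∈ A, a.toZFSet ∈ B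

end HD

namespace Pool.Agent.H7.HDC.CV

open _root_.HD

theorem clb_univ {ρ : Ordinal.{u}} (hρ : IsSuccLimit ρ) : Clb ρ univ :=
  ⟨fun a ha => ⟨succ a, hρ.succ_lt ha, lt_succ a, mem_univ _⟩, fun _ _ _ _ => mem_univ _⟩

theorem cov_of_fam {en : Ordinal.{u} → ZFSet.{u}} {M : Cardinal.{u}} {κ lam c : Ordinal.{u}}
    {x : Ordinal.{u} → Ordinal.{u} → Prop} (hlc : ℵ₀ < lam.cof) (hat : Atom en M.ord lam c)
    (hF : Fam en M κ lam c x) : CovH κ lam lam.cof.ord := by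
  intro A hA hfew
  have hlim : IsSuccLimit lam := Ordinal.one_lt_cof_iff.1 (Cardinal.one_lt_aleph0.trans hlc)
  obtain ⟨τ, hτ, e, he⟩ := hfew
  have hU := HD.All.va M.ord lam hlc τ (Cardinal.lt_ord.1 hτ)
    (fun i => {β | e i < lam ∧ β ∈ E en c ∧ ¬ x β (e i)}) (fun i _ hP => by
      by_cases hi : e i < lam
      · exact hF.fine (e i) hi (Pos.mono hP fun _ _ h _ => h.2)
      · obtain ⟨b, -, -, h, -⟩ := hP univ (clb_univ hlim)
        exact hi h.1)
  have hnull := null_union HD.All.va hlc hF.small hU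
  obtain ⟨β, hβ, -, ⟨hβE, hβn⟩, -⟩ := pos_diff HD.All.va hlc hat.pos hnull univ (clb_univ hlim)
  have h1 : os lam {i | x β i} ∈ PkHOD κ lam := by
    by_contra h
    exact hβn (Or.inl ⟨hβE, h⟩)
  refine ⟨_, h1, hod_os (DO.sect1 hF.dr β) lam, fun a ha => ord_mem_os.2 ⟨hA ha, ?_⟩⟩
  obtain ⟨i, hi, rfl⟩ := he a ha
  by_contra h
  exact hβn (Or.inr ⟨i, hi, hA ha, hβE, h⟩)

/-- covering in the situation of the theorem on strong compactness -/
theorem cov {D M : Cardinal.{u}} (hD : GoodN D) (hM : M.IsRegular) (hMD : M < D)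
    {κ lam : Ordinal.{u}} (hreg : RegHOD lam) (hκ : κ < lam) (hDl : D < lam.cof)
    (hτ : ∀ τ, κ ≤ τ → τ < lam → RegHOD τ → τ.cof ≠ M) : CovH κ lam lam.cof.ord := by
  obtain ⟨en, hen⟩ := All.en.{u}
  have hlam : ℵ₀ < lam.cof := hD.2.2.1.trans hDl
  have hns : NSX D.ord M.ord lam := All.ha D.ord M.ord lam (hD.2.2.2 M hM hMD lam hDl.le)
  obtain ⟨c, -, hat⟩ := All.hb2 en hen D M lam hD.1 hD.2.1 hD.2.2.1 hM hMD hDl hns univ
    ((DO.cst True).congr fun _ => by simp) (All.vc M lam hM (hMD.trans hDl))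
  obtain ⟨A, hA⟩ := All.ca M κ lam hM hκ hτ
  obtain ⟨x, hx⟩ := All.ke en hen M κ lam c A hM hlam hat hreg hκ hA
  exact cov_of_fam hlam hat hx

end Pool.Agent.H7.HDC.CV
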