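import Pool.Agent.H7.HDC.CL
import Pool.Agent.H7.HD.Targets6

/-!
# MP_e37c09_lc: the local dichotomy. Definitions and targets
-/

open Ordinal Cardinal Order Set
open scoped ZFSet

universe u

namespace HD

/-! ## Statement-level definitions -/

/-- HOD maps `β` onto the set of its bounded subsets of `χ`. -/
def PbHOD (χ β : Ordinal.{u}) : Prop :=
  ∃ f y, HOD f ∧ ZFSet.IsFunc β.toZFSet y f ∧
    ∀ ξ < χ, ∀ x, HOD x → x ⊆ ξ.toZFSet → ∃ b < β, ZFSet.pair b.toZFSet x ∈ f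

/-- A subset `A` of `χ` is in HOD if `A ∩ B` is in HOD for all `B ⊆ χ` in HOD which have fewer than
`κ` elements in HOD. -/
def ApH (κ χ : Ordinal.{u}) : Prop := ∀ A, A ⊆ χ.toZFSet →
  (∀ B ∈ PkHOD κ χ, HOD B → HOD (A ∩ B)) → HOD A

/-- For each `K`-complete ultrafilter `W` on `ρ` the set of the elements of `W` which are in HOD is
in HOD. -/
def UlH (K : Cardinal.{u}) (ρ : Ordinal.{u}) : Prop := ∀ W : Ultrafilter Ordinal.{u}, Iio ρ ∈ W →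
  (∀ τ < K.ord, ∀ X : Ordinal.{u} → Set Ordinal.{u}, (∀ i < τ, X i ∈ W) →
    {a | ∀ i < τ, a ∈ X i} ∈ W) →
  HOD ((ZFSet.powerset ρ.toZFSet).sep fun x => HOD x ∧ {a : Ordinal.{u} | a.toZFSet ∈ x} ∈ W)

/-- Let `f` map `K` onto `lam`. Each set `T` in HOD of subsets of `lam` of fewer than `K` elements
(in HOD) such that `f '' γ ∈ T` for stationarily many `γ < K` with `δ₀ ≤ cof γ < δ₁` belongs to a
`K`-complete normal fine ultrafilter of HOD on `P_K(lam)`. -/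
def SuH (δ₀ δ₁ : Ordinal.{u}) (K : Cardinal.{u}) (lam : Ordinal.{u}) : Prop :=
  ∀ f : Ordinal.{u} → Ordinal.{u}, (∀ ζ < K.ord, f ζ < lam) → (∀ a < lam, ∃ ζ < K.ord, f ζ = a) →
    ∀ T, HOD T → T ⊆ PkHOD K.ord lam →
      (∀ C, Clb K.ord C → ∃ γ ∈ C, γ < K.ord ∧ δ₀ ≤ γ.cof.ord ∧ γ.cof.ord < δ₁ ∧
        os lam (f '' Iio γ) ∈ T) → ∃ U, HSup K.ord lam U ∧ T ∈ U

/-! ## Targets -/

/-- TRP. Positive sets are transferred between `K` and `lam` by `sp f`; `C'` is any club set. -/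
def T_TRP : Prop := ∀ (N K : Cardinal.{u}) (lam : Ordinal.{u}), K.IsRegular → ℵ₀ < K →
  lam.cof = K → N.IsRegular → ∀ f : Ordinal.{u} → Ordinal.{u}, (∀ ζ < K.ord, f ζ < lam) →
  (∀ a < lam, ∃ ζ < K.ord, f ζ = a) → ∀ C', Clb K.ord C' → ∀ X : Set Ordinal.{u},
    (Pos N.ord lam X ↔ Pos N.ord K.ord {γ | γ ∈ C' ∧ IsSuccLimit γ ∧
      Pool.Agent.H7.HDC.CL.sp f γ ∈ X ∧ (Pool.Agent.H7.HDC.CL.sp f γ).cof = γ.cof})

/-- SSN. -/
def T_SSN : Prop := ∀ (D₀ D₁ M K : Cardinal.{u}) (lam : Ordinal.{u}), GoodN D₀ → GoodN D₁ →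
  D₀ < D₁ → M.IsRegular → M < D₀ → K.IsRegular → D₁ < K → RegHOD lam → K.ord < lam →
  lam.cof = K → (∀ τ, K.ord ≤ τ → τ < lam → RegHOD τ → τ.cof ≠ M) → SuH D₀.ord D₁.ord K lam

end HD
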