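import Pool.Agent.H7.HDC.AP

/-!
# MP_e37c09_lc: complete ultrafilters
-/

open Ordinal Cardinal Order Set
open scoped ZFSet

universe u

namespace Pool.Agent.H7.HDC.UN

open _root_.HD Pool.Agent.H7.HDC.AP

/-- complete ultrafilters of `V` restrict to elements of HOD -/
theorem uni {K : Cardinal.{u}} {ρ μ : Ordinal.{u}} (hap : ApH K.ord μ) (hP : PowHOD ρ μ) :
    UlH K ρ := by
  intro W hρ hW
  obtain ⟨F, y, hF, hFn, hF2⟩ := hP
  have hE := dr_Ev hF.od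
  set A : ZFSet.{u} := os μ {ζ | ∃ x, ZFSet.pair ζ.toZFSet x ∈ F ∧
    {a : Ordinal.{u} | a.toZFSet ∈ x} ∈ W} with hA
  have hAs : A ⊆ μ.toZFSet := fun z hz => by
    obtain ⟨a, ha, -, rfl⟩ := mem_os.1 hz
    exact toZFSet_mem_toZFSet_iff.2 ha
  have hAE : ∀ ζ < μ, (ζ.toZFSet ∈ A ↔ {a | Ev F ζ a} ∈ W) := by
    intro ζ hζ
    rw [hA, ord_mem_os]
    obtain ⟨x, hx, hx2⟩ := hFn.2 ζ.toZFSet (toZFSet_mem_toZFSet_iff.2 hζ)
    have h1 : {a | Ev F ζ a} = {a : Ordinal.{u} | a.toZFSet ∈ x} := by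
      ext a
      exact ev_iff hFn hx
    rw [h1]
    constructor
    · rintro ⟨-, x', h2, h3⟩
      rw [hx2 x' h2] at h3
      exact h3
    · intro h2
      exact ⟨hζ, x, hx, h2⟩
  have hAH : HOD A := by
    refine hap A hAs fun B hB hBH => ?_
    have hBs := pk_sub hB
    have hB1 : B = os μ {a | a.toZFSet ∈ B} := by
      ext z
      rw [mem_os]
      constructor
      · intro hz
        obtain ⟨a, ha, rfl⟩ := mem_toZFSet_iff.1 (hBs hz)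
        exact ⟨a, ha, hz, rfl⟩
      · rintro ⟨a, -, h, rfl⟩
        exact h
    have h2 := Pool.Agent.H20.HD.CS.few_of_pk (κ := K.ord) (lam := μ)
      (S := {a : Ordinal.{u} | a.toZFSet ∈ B}) (by rw [← hB1]; exact hB)
    obtain ⟨τ, hτ, e, he⟩ := h2
    classical
    have h3 := hW τ hτ (fun i => if {a | Ev F (e i) a} ∈ W then {a | Ev F (e i) a} else
      {a | Ev F (e i) a}ᶜ) (fun i _ => by
        by_cases hi : {a | Ev F (e i) a} ∈ W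
        · simp only [hi, if_true]
        · simp only [hi, if_false]
          exact Ultrafilter.compl_mem_iff_notMem.2 hi)
    obtain ⟨a, ha⟩ := W.nonempty_of_mem h3
    have h4 : ∀ ζ : Ordinal.{u}, ζ.toZFSet ∈ B → ζ < μ → (ζ.toZFSet ∈ A ↔ Ev F ζ a) := by
      intro ζ hζ hζμ
      rw [hAE ζ hζμ]
      obtain ⟨i, hi, rfl⟩ := he ζ ⟨hζ, hζμ⟩
      have h5 := ha i hi
      by_cases h6 : {a | Ev F (e i) a} ∈ W
      · simp only [h6, if_true] at h5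
        exact ⟨fun _ => h5, fun _ => h6⟩
      · simp only [h6, if_false] at h5
        exact ⟨fun h => absurd h h6, fun h => absurd h h5⟩
    have h5 : A ∩ B = os μ {ζ | ζ.toZFSet ∈ B ∧ Ev F ζ a} := by
      ext z
      rw [ZFSet.mem_inter]
      constructor
      · rintro ⟨h6, h7⟩
        obtain ⟨ζ, hζ, rfl⟩ := mem_toZFSet_iff.1 (hAs h6)
        exact mem_os.2 ⟨ζ, hζ, ⟨h7, (h4 ζ h7 hζ).1 h6⟩, rfl⟩
      · intro hz
        obtain ⟨ζ, hζ, ⟨h6, h7⟩, rfl⟩ := mem_os.1 hz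
        exact ⟨(h4 ζ h6 hζ).2 h7, h6⟩
    rw [h5]
    have h6 : DS {ζ | ζ.toZFSet ∈ B ∧ Ev F ζ a} :=
      DO.and hBH.od.ds (DO.sub a (R := fun a w => Ev F (w 0) a) (hE.s2 1 0))
    exact hod_os h6 μ
  refine hod_iff.2 ⟨?_, fun x hx => (ZFSet.mem_sep.1 hx).2.1⟩
  refine OD.of_mem (P := fun v => ∃ z ∈ A, ZFSet.pair z (v 0) ∈ F ∧ v 0 ⊆ ρ.toZFSet ∧ HOD (v 0))
    ?_ fun v => ?_
  · refine DZ.od (R := fun A v => ∃ z ∈ A, ZFSet.pair z (v 0) ∈ F ∧ v 0 ⊆ ρ.toZFSet ∧ HOD (v 0))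
      hAH.od ?_
    refine DZ.exMem (R := fun z v => ZFSet.pair z (v 1) ∈ F ∧ v 1 ⊆ ρ.toZFSet ∧ HOD (v 1)) 0 ?_
    refine DZ.and ?_ (DZ.and ?_ (Pool.Agent.H3.HD.DM.dz_hod 2))
    · exact DZ.od (R := fun F v => ZFSet.pair (v 0) (v 2) ∈ F) hF.od (loc_pmem 1 3 0).dz
    · exact DZ.od (R := fun r v => v 2 ⊆ r) (OD.ordinal ρ) (Loc.sub 3 0).dz
  · rw [ZFSet.mem_sep, ZFSet.mem_powerset]
    constructor
    · rintro ⟨z, hz, h1, h2, h3⟩
      obtain ⟨ζ, hζ, ⟨x, h4, h5⟩, rfl⟩ := mem_os.1 hz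
      refine ⟨h2, h3, ?_⟩
      have h6 := (hFn.2 ζ.toZFSet (toZFSet_mem_toZFSet_iff.2 hζ)).unique h4 h1
      rw [← h6]
      exact h5
    · rintro ⟨h1, h2, h3⟩
      obtain ⟨ζ, hζ, h4⟩ := hF2 _ h2 h1
      refine ⟨ζ.toZFSet, ?_, h4, h1, h2⟩
      rw [hA, ord_mem_os]
      exact ⟨hζ, _, h4, h3⟩

end Pool.Agent.H7.HDC.UN
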